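import Pool.Agent.R153.DS3

set_option autoImplicit false

/-! MP_9fc12a_nt: the roots of all Hankel determinants of the weighted binary digit sum are of
modulus less than four. -/

namespace Pool.Agent.Results.MP_9fc12a_nt.RootBound

open Polynomial

/-- the polynomial `S(n,t)`, the sum of `t ^ j` over the positions `j` of the binary digits one
of `n` -/
noncomputable def S (n : ℕ) : ℤ[X] := Nat.ofDigits (X : ℤ[X]) (Nat.digits 2 n)

/-- the Hankel determinant of size `n` of the sequence `S` -/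
noncomputable def H (n : ℕ) : ℤ[X] := (Matrix.of fun i j : Fin n => S (i + j)).det

theorem aeval_H (t : ℂ) (n : ℕ) : aeval t (H n) = R153.DS.Hk (R153.DS.ds t) n := by
  have h := R153.DS.Hk_map (X : ℤ[X]) ((aeval t : ℤ[X] →ₐ[ℤ] ℂ) : ℤ[X] →+* ℂ) n
  have hX : ((aeval t : ℤ[X] →ₐ[ℤ] ℂ) : ℤ[X] →+* ℂ) X = t := aeval_X t
  rw [hX] at h
  exact h

/-- there is a uniform bound for the roots; in fact all roots have modulus less than four -/
theorem result :
    (∃ M : ℝ, ∀ n : ℕ, 2 ≤ n → ∀ t : ℂ, aeval t (H n) = 0 → ‖t‖ ≤ M) ∧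
    ∀ n : ℕ, 2 ≤ n → ∀ t : ℂ, aeval t (H n) = 0 → ‖t‖ < 4 := by
  have key : ∀ n : ℕ, 2 ≤ n → ∀ t : ℂ, aeval t (H n) = 0 → ‖t‖ < 4 := by
    intro n hn t h
    by_contra hcon
    push Not at hcon
    rw [aeval_H] at h
    exact R153.DS.A_ne hcon n hn h
  exact ⟨⟨4, fun n hn t h => (key n hn t h).le⟩, key⟩

end Pool.Agent.Results.MP_9fc12a_nt.RootBound
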